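import Pool.Agent.V7H29.DC.Quad

/-!
# At least `(3/2) √n` zeros and at least `(3/2) √n` ones among the first `n` digits of `√2`

No hypothesis is assumed.  For all large `n`, at least `(3/2) √n` of the first `n` binary digits
of `√2` are zeros, and at least `(3/2) √n` are ones.  More generally, for every real quadratic
irrational `ξ` with `A ξ² + B ξ + C = 0`, `A > 0`, and every base `b`, the sum of the first `n`
digits `c_k` and the sum of the first `n` complementary digits `b - 1 - c_k` are both at least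
`3 √((b - 1) gcd(b, 2 A) / (8 A)) √n`, for all large `n`.
-/

set_option autoImplicit false

open Finset

namespace Pool.Agent.Results.MP_0308e6_nt.DigitCountsH29

/-- the `k`-th digit of `ξ` after the point in base `b` -/
noncomputable def digit (b : ℕ) (ξ : ℝ) (k : ℕ) : ℤ := ⌊ξ * (b : ℝ) ^ k⌋ % (b : ℤ)

lemma digit_neg {b : ℕ} (hb : 2 ≤ b) {ξ : ℝ} (hirr : Irrational ξ) (k : ℕ) :
    digit b (-ξ) k = b - 1 - digit b ξ k := by
  unfold digit
  have h1 : ⌊-ξ * (b : ℝ) ^ k⌋ = -⌊ξ * (b : ℝ) ^ k⌋ - 1 := by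
    have h2 : Irrational (ξ * ((b ^ k : ℕ) : ℝ)) := hirr.mul_natCast (by positivity)
    have h3 : ξ * (b : ℝ) ^ k = ξ * ((b ^ k : ℕ) : ℝ) := by push_cast; rfl
    rw [neg_mul, h3]
    set z : ℝ := ξ * ((b ^ k : ℕ) : ℝ) with hz
    rw [Int.floor_eq_iff]
    push_cast
    have h4 := Int.floor_le z
    have h5 := Int.lt_floor_add_one z
    have h6 : (⌊z⌋ : ℝ) ≠ z := fun h => h2 ⟨(⌊z⌋ : ℚ), by push_cast; exact h⟩
    have h7 : (⌊z⌋ : ℝ) < z := lt_of_le_of_ne h4 h6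
    constructor <;> linarith
  rw [h1]
  set m := ⌊ξ * (b : ℝ) ^ k⌋
  have hb' : (0 : ℤ) < b := by exact_mod_cast (by omega : 0 < b)
  have h8 := Int.emod_add_mul_ediv m b
  have h9 := Int.emod_nonneg m hb'.ne'
  have h10 := Int.emod_lt_of_pos m hb'
  have h11 : -m - 1 = (b - 1 - m % b) + b * (-(m / b) - 1) := by linarith
  rw [h11, Int.add_mul_emod_self_left]
  exact Int.emod_eq_of_lt (by omega) (by omega)

theorem both {b : ℕ} (hb : 2 ≤ b) {A B C : ℤ} (hA : 0 < A) {ξ : ℝ} (hirr : Irrational ξ)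
    (hq : (A : ℝ) * ξ ^ 2 + B * ξ + C = 0) :
    ∃ n₀ : ℕ, ∀ n : ℕ, n₀ ≤ n →
      3 * Real.sqrt (((b : ℝ) - 1) * (Int.gcd b (2 * A) : ℕ) / (8 * A)) * Real.sqrt n ≤
        ((∑ k ∈ Icc 1 n, digit b ξ k : ℤ) : ℝ) ∧
      3 * Real.sqrt (((b : ℝ) - 1) * (Int.gcd b (2 * A) : ℕ) / (8 * A)) * Real.sqrt n ≤
        ((∑ k ∈ Icc 1 n, (b - 1 - digit b ξ k) : ℤ) : ℝ) := by
  have hsum : ∀ (η : ℝ) (n : ℕ), ∑ k ∈ range n, ⌊η * (b : ℝ) ^ (k + 1)⌋ % (b : ℤ) =
      ∑ k ∈ Icc 1 n, digit b η k := by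
    intro η n
    induction n with
    | zero => simp
    | succ n ih =>
      rw [sum_range_succ, Finset.sum_Icc_succ_top (by omega), ih]
      rfl
  obtain ⟨n1, h1⟩ := Pool.Agent.V7H29.DC.quad_real_best hb hA hirr hq
  obtain ⟨n2, h2⟩ := Pool.Agent.V7H29.DC.quad_real_best hb (A := A) (B := -B) (C := C) hA
    hirr.neg (by push_cast; linarith)
  refine ⟨max n1 n2, fun n hn => ⟨?_, ?_⟩⟩
  · have := h1 n ((le_max_left _ _).trans hn)
    rwa [hsum] at this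
  · have := h2 n ((le_max_right _ _).trans hn)
    rw [hsum] at this
    simpa only [digit_neg hb hirr] using this

/-- The result. -/
theorem result :
    (∃ n₀ : ℕ, ∀ n : ℕ, n₀ ≤ n →
      3 / 2 * Real.sqrt n ≤
        (((Icc 1 n).filter (fun k => digit 2 (Real.sqrt 2) k = 0)).card : ℝ) ∧
      3 / 2 * Real.sqrt n ≤
        (((Icc 1 n).filter (fun k => digit 2 (Real.sqrt 2) k = 1)).card : ℝ)) ∧
    (∀ b : ℕ, 2 ≤ b → ∀ A B C : ℤ, 0 < A → ∀ ξ : ℝ, Irrational ξ →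
      (A : ℝ) * ξ ^ 2 + B * ξ + C = 0 → ∃ n₀ : ℕ, ∀ n : ℕ, n₀ ≤ n →
        3 * Real.sqrt (((b : ℝ) - 1) * (Int.gcd b (2 * A) : ℕ) / (8 * A)) * Real.sqrt n ≤
          ((∑ k ∈ Icc 1 n, digit b ξ k : ℤ) : ℝ) ∧
        3 * Real.sqrt (((b : ℝ) - 1) * (Int.gcd b (2 * A) : ℕ) / (8 * A)) * Real.sqrt n ≤
          ((∑ k ∈ Icc 1 n, (b - 1 - digit b ξ k) : ℤ) : ℝ)) := by
  refine ⟨?_, fun b hb A B C hA ξ hξ hq => both hb hA hξ hq⟩
  obtain ⟨n0, h⟩ := both (b := 2) le_rfl (A := 1) (B := 0) (C := -2) one_pos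
    (ξ := Real.sqrt 2) irrational_sqrt_two (by
      push_cast
      rw [Real.sq_sqrt (by norm_num)]; norm_num)
  have hc : 3 * Real.sqrt ((((2 : ℕ) : ℝ) - 1) * (Int.gcd (2 : ℕ) (2 * 1) : ℕ) /
      (8 * ((1 : ℤ) : ℝ))) = 3 / 2 := by
    have e1 : Int.gcd (2 : ℕ) (2 * 1) = 2 := by decide
    rw [e1]
    have e2 : ((((2 : ℕ) : ℝ) - 1) * ((2 : ℕ) : ℝ) / (8 * ((1 : ℤ) : ℝ))) = (1 / 2 : ℝ) ^ 2 := by
      norm_num
    rw [e2, Real.sqrt_sq (by norm_num)]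
    norm_num
  have hd : ∀ k, digit 2 (Real.sqrt 2) k = 0 ∨ digit 2 (Real.sqrt 2) k = 1 := by
    intro k
    unfold digit
    push_cast
    omega
  refine ⟨n0, fun n hn => ⟨?_, ?_⟩⟩
  · have h2 := (h n hn).2
    rw [hc] at h2
    refine h2.trans (le_of_eq ?_)
    rw [card_filter]
    push_cast
    refine sum_congr rfl fun k _ => ?_
    rcases hd k with h3 | h3 <;> rw [h3] <;> norm_num
  · have h1 := (h n hn).1
    rw [hc] at h1
    refine h1.trans (le_of_eq ?_)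
    rw [card_filter]
    push_cast
    refine sum_congr rfl fun k _ => ?_
    rcases hd k with h3 | h3 <;> rw [h3] <;> norm_num

end Pool.Agent.Results.MP_0308e6_nt.DigitCountsH29
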