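import Pool.Agent.V7H16.Field

/-!
# Changes of digits in every window `[N / log N, N]`, for all elements of `ℚ(√2)` of bounded height

No hypothesis is assumed. Let `0 < δ ≤ 1` and let `N` be large.

* For all integers `t, c, s` with `t, s ≠ 0` and absolute values at most `exp (N ^ (1 - δ))`, among
  the places `k` with `N / log N ≤ k ≤ N` there are at least `(δ / 10) log N` at which the next
  binary digit of `y = (t √2 + c) / s` is different from the `k`-th one. (`y = √2` is the case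
  `t = s = 1`, `c = 0`.)
* This is a case of a statement for every real quadratic irrational `x` and every base `b`: if `N`
  is large, if `t, c, s` are as before and if `e 0, …, e N` are integers of absolute value at most
  `E = exp (N ^ (1 - δ))` such that `∑ e k / b ^ k`, over `k ≤ N`, differs from `(t x + c) / s` by at
  most `E / b ^ N`, then at least `(δ / 10) log N` of the `e k` with `N / log N ≤ k ≤ N` are not zero.

Proof: let `u` be a place (`e u ≠ 0`) such that no place is in `[u - h, u)`, `h ≈ N / log N`, and let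
`p` be the sum of the terms before `u`. Liouville's inequality for `√disc` shows that every interval
`[u + w, u + 2 w + L)`, `L ≤ w ≤ h`, `L ≈ C N ^ (1 - δ)`, contains a place or a sum of two places,
both in `[h, u]`. But the differences of the members of a finite set `Z` of integers meet at most
`9 |Z| / 2` of the scales `[3 ^ s L, 3 ^ (s + 1) L)`.
-/

set_option autoImplicit false

open Finset

namespace Pool.Agent.Results.MP_0308e6_nt.LocalDigitChangesH16

/-- the `k`-th digit of `x` after the point in base `b`: the remainder of `⌊b ^ k x⌋` modulo `b` -/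
noncomputable def digit (b : ℕ) (x : ℝ) (k : ℕ) : ℤ := ⌊x * (b : ℝ) ^ k⌋ % (b : ℤ)

/-- The result. -/
theorem result :
    (∀ δ : ℝ, 0 < δ → δ ≤ 1 → ∃ N₀ : ℕ, ∀ N : ℕ, N₀ ≤ N → ∀ t c s : ℤ, t ≠ 0 → s ≠ 0 →
      |(t : ℝ)| ≤ Real.exp ((N : ℝ) ^ (1 - δ)) → |(c : ℝ)| ≤ Real.exp ((N : ℝ) ^ (1 - δ)) →
      |(s : ℝ)| ≤ Real.exp ((N : ℝ) ^ (1 - δ)) →
      δ * Real.log N / 10 ≤
        (((Icc 1 N).filter fun k : ℕ => (N : ℝ) / Real.log N ≤ (k : ℝ) ∧
          digit 2 ((t * Real.sqrt 2 + c) / s) (k + 1) ≠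
            digit 2 ((t * Real.sqrt 2 + c) / s) k).card : ℝ)) ∧
    (∀ b : ℕ, 2 ≤ b → ∀ A B C : ℤ, A ≠ 0 → ∀ x : ℝ, Irrational x →
      (A : ℝ) * x ^ 2 + B * x + C = 0 → ∀ δ : ℝ, 0 < δ → δ ≤ 1 →
      ∃ N₀ : ℕ, ∀ N : ℕ, N₀ ≤ N → ∀ (t c s : ℤ) (e : ℕ → ℤ), t ≠ 0 → s ≠ 0 →
        |(t : ℝ)| ≤ Real.exp ((N : ℝ) ^ (1 - δ)) → |(c : ℝ)| ≤ Real.exp ((N : ℝ) ^ (1 - δ)) →
        |(s : ℝ)| ≤ Real.exp ((N : ℝ) ^ (1 - δ)) →
        (∀ k ≤ N, |(e k : ℝ)| ≤ Real.exp ((N : ℝ) ^ (1 - δ))) →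
        |(t * x + c) / s - ∑ k ∈ range (N + 1), (e k : ℝ) / (b : ℝ) ^ k| ≤
          Real.exp ((N : ℝ) ^ (1 - δ)) / (b : ℝ) ^ N →
        δ * Real.log N / 10 ≤
          (((Icc 1 N).filter fun k : ℕ =>
            (N : ℝ) / Real.log N ≤ (k : ℝ) ∧ e k ≠ 0).card : ℝ)) := by
  refine ⟨fun δ h0 h1 => ?_, fun b hb A B C hA x hx hq δ h0 h1 =>
    Pool.Agent.V7H16.field_local hb hA hx hq δ h0 h1⟩
  exact Pool.Agent.V7H16.field_changes (b := 2) le_rfl (A := 1) (B := 0) (C := -2)
    one_ne_zero irrational_sqrt_two (by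
      push_cast
      rw [Real.sq_sqrt (by norm_num)]; norm_num) δ h0 h1

end Pool.Agent.Results.MP_0308e6_nt.LocalDigitChangesH16
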