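import Mathlib
import Pool.Agent.V7H57.PD.Main

/-!
# The expansions of `√2` are far from the output of every deterministic pushdown automaton

The distance is the number of places, up to `N`, at which two sequences differ.  The bounds hold
for the digits of every irrational algebraic number `ξ`, more generally for all expansions, with
arbitrary integer digits of small size, of all numbers `(l ξ + r) / m`, and they are uniform in
the automaton.  No hypothesis is assumed.
-/

set_option autoImplicit false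

namespace Pool.Agent.Results.MP_0308e6_nt.PushdownAutomataH57

open Finset

/-- the integer part and the digits of `ξ` after the point in base `b` -/
noncomputable def digits (b : ℕ) (ξ : ℝ) (k : ℕ) : ℤ :=
  if k = 0 then ⌊ξ⌋ else ⌊ξ * (b : ℝ) ^ k⌋ % (b : ℤ)

/-- `w` is an expansion in base `b` of a number `(l ξ + r) / m` with integers `l ≠ 0`, `m ≠ 0`
and `w 1, w 2, …` of absolute value at most `H` (and any integers `r` and `w 0`) -/
def Expansion (b : ℕ) (ξ H : ℝ) (w : ℕ → ℤ) : Prop :=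
  ∃ l m r : ℤ, l ≠ 0 ∧ m ≠ 0 ∧ |(l : ℝ)| ≤ H ∧ |(m : ℝ)| ≤ H ∧ (∀ k, 1 ≤ k → |(w k : ℝ)| ≤ H) ∧
    HasSum (fun k => (w k : ℝ) / (b : ℝ) ^ k) ((l * ξ + r) / m)

/-- the number of places `k` with `M < k ≤ N` at which `w` and `c` differ -/
def wrong (w c : ℕ → ℤ) (M N : ℕ) : ℕ := ((Ioc M N).filter fun k => w k ≠ c k).card

/-- the number of places at which the blocks `w a, …, w (a + n - 1)` and
`w a', …, w (a' + n - 1)` differ -/
def hamming (w : ℕ → ℤ) (a a' n : ℕ) : ℕ := ((range n).filter fun t => w (a + t) ≠ w (a' + t)).card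

/-- words of length at most `r` over an alphabet with `G` letters -/
abbrev Word (G r : ℕ) : Type := {u : List (Fin G) // u.length ≤ r}

/-- A deterministic pushdown automaton reading digits in base `k`, with `Q` states and `G` stack
letters.  Each move depends on the state and on the top letter of the stack (`none` if the stack
is empty), removes the top letter and writes a word of length at most `r` instead.  Silent moves
(without reading) are made whenever they are defined, a digit is read otherwise. -/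
structure Pushdown (k Q G r : ℕ) where
  /-- the state at the beginning -/
  start : Fin Q
  /-- the stack at the beginning -/
  stack : Word G r
  /-- the silent moves: the new state and the word to be written, if the move is defined -/
  silent : Fin Q → Option (Fin G) → Option (Fin Q × Word G r)
  /-- the reading moves: the new state and the word to be written -/
  read : Fin Q → Option (Fin G) → Fin k → Fin Q × Word G r

variable {k Q G r : ℕ}

/-- the configuration (state and stack, the top letter first) after a move -/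
def act (x : Fin Q × Word G r) (c : Fin Q × List (Fin G)) : Fin Q × List (Fin G) :=
  (x.1, x.2.1 ++ c.2.tail)

/-- one silent move leads from `c` to `c'` -/
def Silent (M : Pushdown k Q G r) (c c' : Fin Q × List (Fin G)) : Prop :=
  ∃ x, M.silent c.1 c.2.head? = some x ∧ c' = act x c

/-- `s n` is the configuration after reading the digits of `n` in base `k`, the most significant
one first, and making all silent moves (`s 0` is the configuration before the first digit). -/
structure Run (M : Pushdown k Q G r) (s : ℕ → Fin Q × List (Fin G)) : Prop where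
  rests : ∀ n, M.silent (s n).1 (s n).2.head? = none
  zero : Relation.ReflTransGen (Silent M) (M.start, M.stack.1) (s 0)
  step : ∀ n, ∀ d : Fin k, 1 ≤ k * n + d →
    Relation.ReflTransGen (Silent M) (act (M.read (s n).1 (s n).2.head? d) (s n)) (s (k * n + d))

/-- `c n` is, for `n ≥ 1`, the output of a deterministic pushdown automaton of the given size after
reading `n` in base `k`; the output depends on the state and the top letter of the stack. -/
def Computed (k Q G r : ℕ) (c : ℕ → ℤ) : Prop :=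
  ∃ (M : Pushdown k Q G r) (s : ℕ → Fin Q × List (Fin G)) (out : Fin Q → Option (Fin G) → ℤ),
    Run M s ∧ ∀ n, 1 ≤ n → c n = out (s n).1 (s n).2.head?

/-- `c n` is, for `n ≥ 1`, the output of some deterministic machine after reading `n` in base `k`,
the most significant digit first, and the memory of the machine takes fewer values `s n` on the
numbers `n` with `L + 1` digits than there are such numbers. The type `α` of the values of the
memory may be infinite. -/
def SmallMemory (k L : ℕ) (c : ℕ → ℤ) : Prop :=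
  ∃ (α : Type) (s : ℕ → α) (step : α → Fin k → α) (out : α → ℤ),
    (∀ n, 1 ≤ n → ∀ d : Fin k, s (k * n + d) = step (s n) d) ∧ (∀ n, 1 ≤ n → c n = out (s n)) ∧
    (s '' Set.Ico (k ^ L) (k ^ (L + 1))).ncard < k ^ (L + 1) - k ^ L

/-- For some `n < n' ≤ B`, the sequence `c` takes the same values on the numbers which begin in
base `k` with `n` as on those which begin with `n'`, up to at most `D` exceptions for each number
of further digits. -/
def Merging (k B D : ℕ) (c : ℕ → ℤ) : Prop :=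
  ∃ n n' : ℕ, 1 ≤ n ∧ n < n' ∧ n' ≤ B ∧ ∀ l : ℕ, hamming c (n * k ^ l) (n' * k ^ l) (k ^ l) ≤ D

/-- All sequences with the property `P` are far from the expansions of `ξ`: more than `K` wrong
places in each interval `(N, C N]`, for digits, numerators and denominators of size `exp (η N)`,
and more than `K log N` in the interval `[1, N]`, for size `N ^ K`, if `N ≥ N₀(K)`. -/
def Far (b : ℕ) (ξ : ℝ) (P : (ℕ → ℤ) → Prop) (C : ℕ) : Prop :=
  ∀ K : ℕ, (∃ η : ℝ, 0 < η ∧ ∃ N₀ : ℕ, ∀ N : ℕ, N₀ ≤ N → ∀ w c : ℕ → ℤ,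
      Expansion b ξ (Real.exp (η * N)) w → P c → K < wrong w c N (C * N)) ∧
    ∃ N₀ : ℕ, ∀ N : ℕ, N₀ ≤ N → ∀ w c : ℕ → ℤ, Expansion b ξ ((N : ℝ) ^ K) w → P c →
      K * Real.log N < wrong w c 0 N

/-- Any two blocks of length `n ≥ ε N` at different places up to `N` of an expansion differ at more
than `K` places. -/
def BlocksFarApart (b : ℕ) (ξ : ℝ) : Prop :=
  ∀ (ε : ℝ) (K : ℕ), 0 < ε → ∃ η : ℝ, 0 < η ∧ ∃ N₀ : ℕ, ∀ N : ℕ, N₀ ≤ N → ∀ w : ℕ → ℤ,
    Expansion b ξ (Real.exp (η * N)) w → ∀ n : ℕ, ε * N ≤ n → ∀ a a' : ℕ, 1 ≤ a → a < a' →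
      a' ≤ N → K < hamming w a a' n

/-- The result.  First the digits of `√2`; then the general bounds, of which they are an
instance. -/
theorem result :
    (∀ k Q G r K : ℕ, 2 ≤ k → ∃ N₀ : ℕ, ∀ N : ℕ, N₀ ≤ N → ∀ c : ℕ → ℤ, Computed k Q G r c →
      K * Real.log N < wrong (digits 2 (Real.sqrt 2)) c 0 N) ∧
    ∀ b : ℕ, 2 ≤ b → ∀ ξ : ℝ, Expansion b ξ b (digits b ξ) ∧ (IsAlgebraic ℚ ξ → Irrational ξ →
      (∀ k Q G r : ℕ, 2 ≤ k → ∃ C : ℕ, Far b ξ (Computed k Q G r) C) ∧
      (∀ k L : ℕ, 2 ≤ k → ∃ C : ℕ, Far b ξ (SmallMemory k L) C) ∧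
      (∀ k B D : ℕ, 2 ≤ k → Far b ξ (Merging k B D) (k * (B + 1))) ∧ BlocksFarApart b ξ) := by
  have hfar : ∀ b : ℕ, 2 ≤ b → ∀ ξ : ℝ, IsAlgebraic ℚ ξ → Irrational ξ → ∀ k B D : ℕ, 2 ≤ k →
      Far b ξ (Merging k B D) (k * (B + 1)) := by
    intro b hb ξ hξ hirr k B D hk K
    have hC : 2 ≤ k * (B + 1) := by
      calc 2 = 2 * 1 := rfl
        _ ≤ k * (B + 1) := Nat.mul_le_mul hk (by omega)
    have hwin := Pool.Agent.V7H57.PD.merging_window b hb ξ hξ hirr k hk B D
    refine ⟨?_, ?_⟩
    · obtain ⟨η, hη, N₀, h0⟩ := hwin K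
      exact ⟨η, hη, N₀, fun N hN w c hw hc => h0 N hN w hw c hc⟩
    · obtain ⟨N₀, h0⟩ := Pool.Agent.V7H57.PD.log_of_windows b ξ
        (Pool.Agent.V7H57.PD.Merging k B D) _ hC hwin K
      exact ⟨N₀, fun N hN w c hw hc => h0 N hN w hw c hc⟩
  have hpd : ∀ k Q G r : ℕ, 2 ≤ k → ∃ B : ℕ, ∀ c, Computed k Q G r c → Merging k B 0 c := by
    intro k Q G r hk
    obtain ⟨B, hB⟩ := Pool.Agent.V7H57.PD.merging_pushdown k Q G r hk
    refine ⟨B, ?_⟩
    rintro c ⟨M, s, out, hs, hc⟩
    exact hB ⟨M.start, M.stack, M.silent, M.read⟩ s ⟨hs.rests, hs.zero, hs.step⟩ out c hc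
  have main : ∀ b : ℕ, 2 ≤ b → ∀ ξ : ℝ, IsAlgebraic ℚ ξ → Irrational ξ →
      ∀ k Q G r : ℕ, 2 ≤ k → ∃ C : ℕ, Far b ξ (Computed k Q G r) C := by
    intro b hb ξ hξ hirr k Q G r hk
    obtain ⟨B, hB⟩ := hpd k Q G r hk
    refine ⟨k * (B + 1), fun K => ?_⟩
    obtain ⟨⟨η, hη, N₁, h1⟩, N₂, h2⟩ := hfar b hb ξ hξ hirr k B 0 hk K
    exact ⟨⟨η, hη, N₁, fun N hN w c hw hc => h1 N hN w c hw (hB c hc)⟩,
      N₂, fun N hN w c hw hc => h2 N hN w c hw (hB c hc)⟩
  have memory : ∀ b : ℕ, 2 ≤ b → ∀ ξ : ℝ, IsAlgebraic ℚ ξ → Irrational ξ →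
      ∀ k L : ℕ, 2 ≤ k → ∃ C : ℕ, Far b ξ (SmallMemory k L) C := by
    intro b hb ξ hξ hirr k L hk
    have hB : ∀ c, SmallMemory k L c → Merging k (k ^ (L + 1)) 0 c := by
      rintro c ⟨α, s, step, out, hs, hc, hL⟩
      exact Pool.Agent.V7H57.PD.merging_memory k L hk s step out c hs hc hL
    refine ⟨k * (k ^ (L + 1) + 1), fun K => ?_⟩
    obtain ⟨⟨η, hη, N₁, h1⟩, N₂, h2⟩ := hfar b hb ξ hξ hirr k (k ^ (L + 1)) 0 hk K
    exact ⟨⟨η, hη, N₁, fun N hN w c hw hc => h1 N hN w c hw (hB c hc)⟩,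
      N₂, fun N hN w c hw hc => h2 N hN w c hw (hB c hc)⟩
  refine ⟨?_, fun b hb ξ => ⟨Pool.Agent.V7H57.PD.digits_expansion b hb ξ, fun hξ hirr =>
    ⟨main b hb ξ hξ hirr, memory b hb ξ hξ hirr, hfar b hb ξ hξ hirr, fun ε K hε =>
      Pool.Agent.V7H57.PD.far_blocks b hb ξ hξ hirr ε hε K⟩⟩⟩
  have halg : IsAlgebraic ℚ (Real.sqrt 2) := by
    refine ⟨Polynomial.X ^ 2 - Polynomial.C 2, ?_, ?_⟩
    · exact (Polynomial.monic_X_pow_sub_C (2 : ℚ) two_ne_zero).ne_zero
    · simp
  intro k Q G r K hk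
  obtain ⟨C, hC⟩ := main 2 le_rfl _ halg irrational_sqrt_two k Q G r hk
  obtain ⟨N₀, h0⟩ := (hC (K + 1)).2
  refine ⟨max N₀ 2, fun N hN c hc => ?_⟩
  have hN2 : 2 ≤ N := (le_max_right _ _).trans hN
  have hN2R : (2 : ℝ) ≤ N := by exact_mod_cast hN2
  have h1 := h0 N ((le_max_left _ _).trans hN) (digits 2 (Real.sqrt 2)) c
    (Pool.Agent.V7H79.RD.Expansion.mono (Pool.Agent.V7H57.PD.digits_expansion 2 le_rfl _) (by
      push_cast
      calc (2 : ℝ) ≤ N := hN2R
        _ ≤ (N : ℝ) ^ (K + 1) := le_self_pow₀ (by linarith) (by omega))) hc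
  refine lt_of_le_of_lt ?_ h1
  apply mul_le_mul_of_nonneg_right _ (Real.log_natCast_nonneg N)
  push_cast
  linarith

end Pool.Agent.Results.MP_0308e6_nt.PushdownAutomataH57
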