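import Mathlib
import Pool.Agent.V7H7.TR.SqrtTwo

/-!
# Almost all rational translates of `√2` are nearly normal, at every scale

Let `P` be a finite set of odd primes, and let `q` run through the rational numbers of `[0, 1)`
whose denominators are composed of primes of `P`.  For every `ε > 0` and every `t`, all numbers
`√2 + q`, with at most `K (t + 1) / ε ^ 6` exceptions, have between `(1 / 2 - ε) n` and
`(1 / 2 + ε) n` ones among their first `n` binary digits, for all `n` in arbitrarily remote long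
intervals `[X, 2 ^ t X]`.  Among the `m` numbers `√2 + j / m`, all but `K (t + 1) / ε ^ 6` have this
property for all `n` in any given interval `[N, 2 ^ t N]` with `N ≥ m`; the constant `K` does not
depend on `m` and `N`.  The same holds for the discrepancy of `b ^ k (ξ + ρ q)` modulo one, for
finitely many bases `b`, finitely many arbitrary real numbers `ξ` and rational numbers `ρ ≠ 0` at
the same time, with a constant which does not depend on the numbers `ξ`.  No hypothesis is assumed.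
-/

set_option autoImplicit false

namespace Pool.Agent.Results.MP_0308e6_nt.RationalTranslatesH7

open Finset

/-- the number of ones among the first `n` binary digits of `x` after the point -/
noncomputable def ones (x : ℝ) (n : ℕ) : ℕ :=
  ((range n).filter fun k => ⌊x * (2 : ℝ) ^ (k + 1)⌋ % 2 = 1).card

/-- the number of `k < n` for which the fractional part of `b ^ k y` is in `[α, β)` -/
noncomputable def visits (b : ℕ) (y α β : ℝ) (n : ℕ) : ℕ :=
  ((range n).filter fun k => α ≤ Int.fract (y * (b : ℝ) ^ k) ∧ Int.fract (y * (b : ℝ) ^ k) < β).card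

/-- The discrepancy of the fractional parts of `b ^ k y`, `k < n`, is at most `ε`. -/
def EquiAt (b : ℕ) (y : ℝ) (n : ℕ) (ε : ℝ) : Prop :=
  ∀ α β : ℝ, 0 ≤ α → α ≤ β → β ≤ 1 → |(visits b y α β n : ℝ) - (β - α) * n| ≤ ε * n

/-- the rational numbers of `[0, 1)` whose denominators are composed of primes of `P` -/
def Translates (P : Finset ℕ) : Set ℚ := {q | 0 ≤ q ∧ q < 1 ∧ q.den.primeFactors ⊆ P}

/-- The set `s` is finite and has at most `B` elements. -/
def AtMost {α : Type} (s : Set α) (B : ℝ) : Prop := s.Finite ∧ (s.ncard : ℝ) ≤ B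

/-- Only few rational numbers `q` are such that `bad ε q n` is true for many places `n`:
* at most `K (t + 1) / ε ^ 6` of the numbers `j / m`, `0 ≤ j < m`, have a bad place in
  `[N, 2 ^ t N]`, if `N ≥ m` and all prime factors of `m` are in `P`;
* at most `K (t + 1) / ε ^ 6` of the rational numbers of `Translates P` have a bad place in
  `[X, 2 ^ t X]` for all large `X`;
* for each non-summable sequence `ω` of weights, at most `K / (ε ^ 6 η)` of the rational numbers of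
  `Translates P` have bad places of total weight greater than `η` times the weight of
  `{0, 1, …, X - 1}` in this set, for all large `X`. -/
def Rare (P : Finset ℕ) (K : ℝ) (bad : ℝ → ℚ → ℕ → Prop) : Prop :=
  ∀ (ε : ℝ) (t : ℕ), 0 < ε →
    (∀ m N : ℕ, 0 < m → m.primeFactors ⊆ P → m ≤ N →
      AtMost {j : ℕ | j < m ∧ ∃ n, N ≤ n ∧ n ≤ 2 ^ t * N ∧ bad ε (j / m) n}
        (K * (t + 1) / ε ^ 6)) ∧
    AtMost {q : ℚ | q ∈ Translates P ∧ ∃ X₀, ∀ X ≥ X₀, ∃ n, X ≤ n ∧ n ≤ 2 ^ t * X ∧ bad ε q n}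
      (K * (t + 1) / ε ^ 6) ∧
    ∀ (ω : ℕ → ℝ) (η : ℝ), (∀ n, 0 ≤ ω n) → ¬ Summable ω → 0 < η →
      AtMost {q : ℚ | q ∈ Translates P ∧ ∃ X₀, ∀ X ≥ X₀,
        η * ∑ n ∈ range X, ω n < ∑ n ∈ range X, Set.indicator {n | bad ε q n} ω n}
        (K / (ε ^ 6 * η))

/-- from the statement on one modulus to all statements -/
lemma rare_of_modulus (P : Finset ℕ) (K : ℝ) (bad : ℝ → ℚ → ℕ → Prop)
    (h : ∀ (m N t : ℕ) (ε : ℝ), 0 < m → m.primeFactors ⊆ P → m ≤ N → 0 < ε →
      (Set.ncard {j : ℕ | j < m ∧ ∃ n, N ≤ n ∧ n ≤ 2 ^ t * N ∧ bad ε (j / m) n} : ℝ) ≤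
        K * (t + 1) / ε ^ 6) : Rare P K bad := by
  classical
  intro ε t hε
  refine ⟨fun m N hm hmP hN => ⟨?_, h m N t ε hm hmP hN hε⟩, ?_, fun ω η hω hω' hη => ?_⟩
  · exact (Set.finite_lt_nat m).subset fun j hj => hj.1
  · exact Pool.Agent.V7H7.TR.limit_principle P
      (fun q X => ∃ n, X ≤ n ∧ n ≤ 2 ^ t * X ∧ bad ε q n) (K * (t + 1) / ε ^ 6)
      (fun m N hm hmP hN => h m N t ε hm hmP hN hε)
  · have h1 := Pool.Agent.V7H7.TR.density_principle P (fun q n => bad ε q n) (K / ε ^ 6)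
      (fun m n hm hmP hn => ?_) ω hω hω' η hη
      (fun q n => Set.indicator {n | bad ε q n} ω n)
      (fun q n => ⟨fun hb => Set.indicator_of_mem (show n ∈ {n | bad ε q n} from hb) ω,
        fun hb => Set.indicator_of_notMem (show n ∉ {n | bad ε q n} from hb) ω⟩)
    · rw [div_div] at h1
      exact h1
    · have h2 := h m n 0 ε hm hmP hn hε
      have e : {j : ℕ | j < m ∧ ∃ n', n ≤ n' ∧ n' ≤ 2 ^ 0 * n ∧ bad ε (j / m) n'} =
          {j : ℕ | j < m ∧ bad ε (j / m) n} := by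
        ext j
        constructor
        · rintro ⟨h3, n', h4, h5, h6⟩
          have : n' = n := by omega
          rw [this] at h6
          exact ⟨h3, h6⟩
        · rintro ⟨h3, h6⟩
          exact ⟨h3, n, le_rfl, by omega, h6⟩
      rw [e] at h2
      simpa using h2

theorem result :
    (∀ P : Finset ℕ, (∀ p ∈ P, p.Prime ∧ p ≠ 2) → ∃ K : ℝ, 0 < K ∧
      Rare P K fun ε q n => ε * n < |(ones (√2 + q) n : ℝ) - n / 2|) ∧
    ∀ (ι : Type) [Fintype ι] (ρ : ι → ℚ) (S P : Finset ℕ), (∀ i, ρ i ≠ 0) → (∀ b ∈ S, 2 ≤ b) →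
      (∀ p ∈ P, p.Prime ∧ ∀ b ∈ S, ¬ p ∣ b) → ∃ K : ℝ, 0 < K ∧ ∀ ξ : ι → ℝ,
        Rare P K fun ε q n => ∃ i, ∃ b ∈ S, ¬ EquiAt b (ξ i + ρ i * q) n ε := by
  constructor
  · intro P hP
    have hP' : ∀ p ∈ P, p.Prime ∧ ∀ b ∈ ({2} : Finset ℕ), ¬ p ∣ b := by
      intro p hp
      refine ⟨(hP p hp).1, fun b hb h => ?_⟩
      rw [mem_singleton] at hb
      rw [hb] at h
      exact (hP p hp).2 ((Nat.prime_dvd_prime_iff_eq (hP p hp).1 Nat.prime_two).1 h)
    obtain ⟨K, hK, h⟩ := Pool.Agent.V7H7.TR.main_finite (ι := Unit) (fun _ => 1)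
      (fun _ => one_ne_zero) {2} (fun b hb => by rw [mem_singleton] at hb; omega) P hP'
    refine ⟨K, hK, rare_of_modulus P K _ fun m N t ε hm hmP hN hε => ?_⟩
    refine le_trans ?_ (h (fun _ => √2) m N t ε hm hmP hN hε)
    have hsub : {j : ℕ | j < m ∧ ∃ n, N ≤ n ∧ n ≤ 2 ^ t * N ∧
        ε * n < |(ones (√2 + ((j / m : ℚ) : ℝ)) n : ℝ) - n / 2|} ⊆
        {j : ℕ | j < m ∧ ∃ n, N ≤ n ∧ n ≤ 2 ^ t * N ∧ ∃ _ : Unit, ∃ b ∈ ({2} : Finset ℕ),
          ¬ Pool.Agent.V7H7.TR.Disc b (√2 + ((1 : ℚ) : ℝ) * (j / m)) n ε} := by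
      rintro j ⟨h1, n, h2, h3, h4⟩
      refine ⟨h1, n, h2, h3, (), 2, mem_singleton_self 2, fun hd => ?_⟩
      have h5 := Pool.Agent.V7H7.TR.onesR_of_disc _ n ε hd
      have e : √2 + ((1 : ℚ) : ℝ) * (j / m) = √2 + ((j / m : ℚ) : ℝ) := by push_cast; ring
      rw [e] at h5
      exact absurd h5 (not_le.2 h4)
    have h1 := Set.ncard_le_ncard hsub ((Set.finite_lt_nat m).subset fun j hj => hj.1)
    exact_mod_cast h1
  · intro ι _ ρ S P hρ hS hP
    obtain ⟨K, hK, h⟩ := Pool.Agent.V7H7.TR.main_finite ρ hρ S hS P hP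
    refine ⟨K, hK, fun ξ => rare_of_modulus P K _ fun m N t ε hm hmP hN hε => ?_⟩
    have h1 := h ξ m N t ε hm hmP hN hε
    have e : {j : ℕ | j < m ∧ ∃ n, N ≤ n ∧ n ≤ 2 ^ t * N ∧ ∃ i, ∃ b ∈ S,
        ¬ EquiAt b (ξ i + ρ i * ((j / m : ℚ) : ℝ)) n ε} =
        {j : ℕ | j < m ∧ ∃ n, N ≤ n ∧ n ≤ 2 ^ t * N ∧ ∃ i, ∃ b ∈ S,
        ¬ Pool.Agent.V7H7.TR.Disc b (ξ i + ρ i * (j / m)) n ε} := by
      push_cast
      rfl
    rw [e]
    exact h1

end Pool.Agent.Results.MP_0308e6_nt.RationalTranslatesH7
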